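import Pool.Agent.Helper72.FX.StK

set_option autoImplicit false

namespace Pool.Agent.Helper53.FX

open Polynomial Pool.Agent.Helper72.FX

theorem kil_bot' {A : Type} [CommRing A] (M : Type) [AddCommGroup M] [Module A M] :
    kil (⊥ : Ideal A) M := by
  intro x hx y
  rw [Ideal.mem_bot.1 hx, zero_smul]

theorem kil_map_bot {A : Type} [CommRing A] (M : Type) [AddCommGroup M] [Module A[X] M] :
    kil ((⊥ : Ideal A).map C) M := by
  rw [Ideal.map_bot]
  exact kil_bot' M

theorem hNPX : StNPX := by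
  intro hEXT hDQ hSNK hRES hPMX A _ _ hNP
  obtain ⟨Λ, iΛ, χ, hA, N, iN, iM, hfin, hne⟩ := hNP
  obtain ⟨ψ, hψ⟩ := hEXT hDQ hSNK hRES A ⊥ Λ χ
  have hPN := hPMX A N N N LinearMap.id LinearMap.id
  refine ⟨Λ, iΛ, ψ.mono (fun M _ _ _ => kil_map_bot M), ?_, PolynomialModule A N, inferInstance,
    inferInstance, hPN.2.2.2.1 hfin, ?_⟩
  · change ψ.f A[X] = 0
    have h1 : ψ.f (PolynomialModule A A) = ψ.f A[X] :=
      ψ.equiv (gd_kil _) (PolynomialModule.equivPolynomialSelf (R := A)) inferInstance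
        (kil_map_bot _)
    rw [← h1, hψ A inferInstance (kil_bot' A), hA]
  · change ψ.f (PolynomialModule A N) ≠ 0
    rw [hψ N hfin (kil_bot' N)]
    exact hne

end Pool.Agent.Helper53.FX
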