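import Pool.Agent.Helper87.FX.StC

set_option autoImplicit false

namespace Pool.Agent.Helper53.FX

open Pool.Agent.Helper87.FX

theorem hGEN : StGDU → StTRA → StFLO → StGEN := by
  intro hGDU hTRA _ n F H hS hH
  obtain ⟨t1, t2, t3⟩ := hTRA n F H hH
  obtain ⟨zs, l, hl⟩ := hS.ncst
  have key : ∀ S : Finset (Fin n), ∀ y : AV n, y.1 ≠ 0 → (∀ j, j ∉ S → y.2.2 j = zs j) →
      Gd F H y := by
    classical
    intro S
    induction S using Finset.induction_on with
    | empty =>
      intro y hy h
      have hz : y.2.2 = zs := funext fun j => h j (Finset.notMem_empty j)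
      refine hGDU n F H hH y l hy ?_
      rw [hz]
      exact hl
    | insert j S' _ ih =>
      intro y hy h
      refine t1 j ((zs j - y.2.2 j) / y.1) y (ih _ ?_ ?_)
      · exact hy
      · intro i hi
        change mv y.2.2 j ((zs j - y.2.2 j) / y.1 * y.1) i = zs i
        rw [div_mul_cancel₀ _ hy]
        unfold mv
        rw [Pi.add_apply]
        by_cases hij : i = j
        · subst hij
          rw [Pi.single_eq_same]
          ring
        · rw [Pi.single_eq_of_ne hij, add_zero]
          refine h i ?_
          rw [Finset.mem_insert]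
          rintro (e | e)
          · exact hij e
          · exact hi e
  have g1 : ∀ y : AV n, y.1 ≠ 0 → Gd F H y := fun y hy =>
    key Finset.univ y hy (fun j hj => absurd (Finset.mem_univ j) hj)
  intro y hy
  by_cases h1 : y.1 = 0
  · by_cases h2 : y.2.1 = 0
    · have he : MvPolynomial.eval y.2.2 F = 0 := by
        have h3 : y.1 * y.2.1 - MvPolynomial.eval y.2.2 F = 0 := hy
        rw [h1, zero_mul, zero_sub, neg_eq_zero] at h3
        exact h3
      obtain ⟨m, hm⟩ := hS.reg y.2.2 he
      refine t2 m 1 y (g1 _ ?_)
      change y.1 + 1 * H m y.2.2 (1 * y.2.1) ≠ 0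
      rw [h1, h2, mul_zero, hH.zero, zero_add, one_mul]
      exact hm
    · exact t3 y (g1 _ h2)
  · exact g1 y h1

end Pool.Agent.Helper53.FX
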