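import Pool.Agent.Helper9.FX.StP

set_option autoImplicit false

namespace Pool.Agent.Helper53.FX

open Set Complex
open Pool.Agent.Helper9.FX

private lemma alg1 (t w x y z : ℂ) (hw : w ^ 2 = t) (ht : t ≠ 0)
    (h : y * (1 + t * x) = x + z ^ 2) :
    (x + y + 2 * z / w) * (x + y - 2 * z / w) = (x - y) * (x - y + 4 / t) := by
  subst hw
  have hw0 : w ≠ 0 := by
    intro e
    exact ht (by rw [e]; ring)
  field_simp
  linear_combination 4 * h

private lemma den_ne (d r : ℂ) (h : d ≠ 0 ∨ r ≠ 0) :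
    d * (starRingEnd ℂ) d + r * (starRingEnd ℂ) r ≠ 0 := by
  rw [Complex.mul_conj, Complex.mul_conj, ← Complex.ofReal_add]
  intro e
  have e1 : Complex.normSq d + Complex.normSq r = 0 := by exact_mod_cast e
  have h1 := Complex.normSq_nonneg d
  have h2 := Complex.normSq_nonneg r
  have h3 : Complex.normSq d = 0 := by linarith
  have h4 : Complex.normSq r = 0 := by linarith
  rcases h with h | h
  · exact h (Complex.normSq_eq_zero.1 h3)
  · exact h (Complex.normSq_eq_zero.1 h4)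

private lemma zeq (d e p r : ℂ) (h : d ≠ 0 ∨ r ≠ 0) (hm : p * r = d * e) :
    p = (p * (starRingEnd ℂ) d + e * (starRingEnd ℂ) r) /
        (d * (starRingEnd ℂ) d + r * (starRingEnd ℂ) r) * d ∧
    e = (p * (starRingEnd ℂ) d + e * (starRingEnd ℂ) r) /
        (d * (starRingEnd ℂ) d + r * (starRingEnd ℂ) r) * r := by
  have hN := den_ne d r h
  constructor
  · rw [div_mul_eq_mul_div, eq_div_iff hN]
    linear_combination (starRingEnd ℂ) r * hm
  · rw [div_mul_eq_mul_div, eq_div_iff hN]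
    linear_combination (-(starRingEnd ℂ) d) * hm

private lemma zeb (d e p r z : ℂ) (h : d ≠ 0 ∨ r ≠ 0) (h1 : p = z * d) (h2 : e = z * r) :
    (p * (starRingEnd ℂ) d + e * (starRingEnd ℂ) r) /
        (d * (starRingEnd ℂ) d + r * (starRingEnd ℂ) r) = z := by
  have hN := den_ne d r h
  rw [div_eq_iff hN, h1, h2]
  ring

private lemma pt_dd (t w d p r : ℂ) : dd (pt t w d p r) = d := by
  unfold dd pt
  ring

private lemma pt_pp (t w d p r : ℂ) (hw : w ≠ 0) : pp w (pt t w d p r) = p := by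
  unfold pp pt
  field_simp
  ring

private lemma pt_rr (t w d p r : ℂ) (hw : w ≠ 0) : rr w (pt t w d p r) = r := by
  unfold rr pt
  field_simp
  ring

private lemma pt_eq (t w d p r : ℂ) (hw : w ^ 2 = t) (ht : t ≠ 0) (h : p * r = d * (d + 4 / t)) :
    ((p + r) / 4 - d / 2) * (1 + t * ((p + r) / 4 + d / 2)) =
      ((p + r) / 4 + d / 2) + (w * (p - r) / 4) ^ 2 := by
  have h2 : t * (p * r) = d * (t * d + 4) := by
    rw [h]
    field_simp
  have e : (w * (p - r) / 4) ^ 2 = t * (p - r) ^ 2 / 16 := by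
    rw [← hw]
    ring
  rw [e]
  linear_combination (1 / 4) * h2

private lemma pt_back (t w x y z : ℂ) (hw : w ≠ 0) :
    pt t w (x - y) (x + y + 2 * z / w) (x + y - 2 * z / w) = (t, x, y, z) := by
  unfold pt
  refine Prod.ext rfl (Prod.ext ?_ (Prod.ext ?_ ?_))
  · change (x + y + 2 * z / w + (x + y - 2 * z / w)) / 4 + (x - y) / 2 = x
    ring
  · change (x + y + 2 * z / w + (x + y - 2 * z / w)) / 4 - (x - y) / 2 = y
    ring
  · change w * (x + y + 2 * z / w - (x + y - 2 * z / w)) / 4 = z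
    field_simp
    ring

theorem hPCA : StPCA := by
  rintro U s ⟨_, _, hs⟩
  have hw0 : ∀ t ∈ U, s t ≠ 0 := by
    intro t ht e
    obtain ⟨h1, h2⟩ := hs t ht
    apply h2
    rw [← h1, e]
    ring
  have P1 : ∀ v ∈ QU U, pp (s v.1) v * rr (s v.1) v = dd v * (dd v + 4 / v.1) := by
    rintro ⟨t, x, y, z⟩ ⟨ht, hq⟩
    exact alg1 t (s t) x y z (hs t ht).1 (hs t ht).2 hq
  have P3 : ∀ v ∈ QU U ∩ V1 U s, pp (s v.1) v = ze1 s v * dd v ∧
      dd v + 4 / v.1 = ze1 s v * rr (s v.1) v := by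
    rintro v ⟨hv, hv1⟩
    exact zeq (dd v) (dd v + 4 / v.1) (pp (s v.1) v) (rr (s v.1) v) hv1.2 (P1 v hv)
  have P5 : ∀ v ∈ QU U ∩ V2 U s, dd v = ze2 s v * pp (s v.1) v ∧
      rr (s v.1) v = ze2 s v * (dd v + 4 / v.1) := by
    rintro v ⟨hv, hv1⟩
    exact zeq (pp (s v.1) v) (rr (s v.1) v) (dd v) (dd v + 4 / v.1) hv1.2 (P1 v hv).symm
  have P3c : ∀ v ∈ QU U ∩ V1 U s, ch1 s v.1 (ze1 s v) (rr (s v.1) v) = v := by
    rintro v hv
    obtain ⟨a1, a2⟩ := P3 v hv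
    have b1 : ze1 s v * rr (s v.1) v - 4 / v.1 = dd v := by rw [← a2]; ring
    unfold ch1
    rw [b1, ← a1]
    obtain ⟨t, x, y, z⟩ := v
    exact pt_back t (s t) x y z (hw0 t hv.1.1)
  have P5c : ∀ v ∈ QU U ∩ V2 U s, ch2 s v.1 (ze2 s v) (pp (s v.1) v) = v := by
    rintro v hv
    obtain ⟨a1, a2⟩ := P5 v hv
    unfold ch2
    rw [← a1, ← a2]
    obtain ⟨t, x, y, z⟩ := v
    exact pt_back t (s t) x y z (hw0 t hv.1.1)
  have P4 : ∀ t ∈ U, ∀ ζ ρ : ℂ, ch1 s t ζ ρ ∈ QU U ∩ V1 U s ∧ (ch1 s t ζ ρ).1 = t ∧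
      ze1 s (ch1 s t ζ ρ) = ζ ∧ rr (s t) (ch1 s t ζ ρ) = ρ := by
    intro t ht ζ ρ
    have hw := hw0 t ht
    have ht0 := (hs t ht).2
    have c0 : (ch1 s t ζ ρ).1 = t := rfl
    have c1 : dd (ch1 s t ζ ρ) = ζ * ρ - 4 / t := pt_dd _ _ _ _ _
    have c2 : pp (s t) (ch1 s t ζ ρ) = ζ * (ζ * ρ - 4 / t) := pt_pp _ _ _ _ _ hw
    have c3 : rr (s t) (ch1 s t ζ ρ) = ρ := pt_rr _ _ _ _ _ hw
    have c4 : ζ * ρ - 4 / t ≠ 0 ∨ ρ ≠ 0 := by
      by_cases hρ : ρ = 0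
      · left
        rw [hρ, mul_zero, zero_sub, neg_ne_zero]
        exact div_ne_zero (by norm_num) ht0
      · exact Or.inr hρ
    have m1 : ch1 s t ζ ρ ∈ QU U := by
      refine ⟨ht, ?_⟩
      exact pt_eq t (s t) (ζ * ρ - 4 / t) (ζ * (ζ * ρ - 4 / t)) ρ (hs t ht).1 ht0 (by ring)
    have m2 : ch1 s t ζ ρ ∈ V1 U s := by
      refine ⟨ht, ?_⟩
      rw [c0, c1, c3]
      exact c4
    refine ⟨⟨m1, m2⟩, c0, ?_, c3⟩
    unfold ze1
    rw [c0, c1, c2, c3]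
    exact zeb _ _ _ _ ζ c4 rfl (by ring)
  have P6 : ∀ t ∈ U, ∀ ζ p : ℂ, ch2 s t ζ p ∈ QU U ∩ V2 U s ∧ (ch2 s t ζ p).1 = t ∧
      ze2 s (ch2 s t ζ p) = ζ ∧ pp (s t) (ch2 s t ζ p) = p := by
    intro t ht ζ p
    have hw := hw0 t ht
    have ht0 := (hs t ht).2
    have c0 : (ch2 s t ζ p).1 = t := rfl
    have c1 : dd (ch2 s t ζ p) = ζ * p := pt_dd _ _ _ _ _
    have c2 : pp (s t) (ch2 s t ζ p) = p := pt_pp _ _ _ _ _ hw
    have c3 : rr (s t) (ch2 s t ζ p) = ζ * (ζ * p + 4 / t) := pt_rr _ _ _ _ _ hw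
    have c4 : p ≠ 0 ∨ ζ * p + 4 / t ≠ 0 := by
      by_cases hp : p = 0
      · right
        rw [hp, mul_zero, zero_add]
        exact div_ne_zero (by norm_num) ht0
      · exact Or.inl hp
    have m1 : ch2 s t ζ p ∈ QU U := by
      refine ⟨ht, ?_⟩
      exact pt_eq t (s t) (ζ * p) p (ζ * (ζ * p + 4 / t)) (hs t ht).1 ht0 (by ring)
    have m2 : ch2 s t ζ p ∈ V2 U s := by
      refine ⟨ht, ?_⟩
      rw [c0, c1, c2]
      exact c4
    refine ⟨⟨m1, m2⟩, c0, ?_, c2⟩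
    unfold ze2
    rw [c0, c1, c2, c3]
    exact zeb _ _ _ _ ζ c4 rfl rfl
  have P7 : ∀ v ∈ QU U ∩ V1 U s, (v ∈ V2 U s ↔ ze1 s v ≠ 0) := by
    rintro v hv
    obtain ⟨a1, a2⟩ := P3 v hv
    constructor
    · rintro ⟨_, h⟩ e
      rw [a1, a2, e, zero_mul, zero_mul] at h
      rcases h with h | h <;> exact h rfl
    · intro hz
      refine ⟨hv.1.1, ?_⟩
      rw [a1, a2]
      rcases hv.2.2 with h | h
      · exact Or.inl (mul_ne_zero hz h)
      · exact Or.inr (mul_ne_zero hz h)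
  refine ⟨P1, ?_, ?_, P4, ?_, P6, P7, ?_⟩
  · intro v hv
    by_cases h : dd v = 0
    · right
      refine ⟨hv.1, Or.inr ?_⟩
      rw [h, zero_add]
      exact div_ne_zero (by norm_num) (hs v.1 hv.1).2
    · left
      exact ⟨hv.1, Or.inl h⟩
  · intro v hv
    exact ⟨(P3 v hv).1, (P3 v hv).2, P3c v hv⟩
  · intro v hv
    exact ⟨(P5 v hv).1, (P5 v hv).2, P5c v hv⟩
  · intro t ht ζ ρ
    obtain ⟨a, _, b, _⟩ := P4 t ht ζ ρ
    rw [P7 _ a, b]

end Pool.Agent.Helper53.FX
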